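import Pool.Agent.Helper51.GPC.Majority

namespace Pool.Agent.Results.MP_480c30_co.Automorphism

open Pool.Agent.Helper51.GPC

/-- Every finite poset with a nontrivial automorphism satisfies the golden partition
conjecture. -/
theorem result (α : Type) [Fintype α] [PartialOrder α] (σ : α ≃o α)
    (hσ : σ ≠ OrderIso.refl α) : Golden α := by
  obtain ⟨x, hx⟩ : ∃ x, σ x ≠ x := by
    by_contra h
    push Not at h
    exact hσ (OrderIso.ext (funext h))
  exact golden_of_automorphism σ hx

end Pool.Agent.Results.MP_480c30_co.Automorphism
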