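import Pool.Agent.Helper89.GP.All

namespace Pool.Agent.Results.MP_480c30_co.Halving

open Pool.Agent.Helper89.GP

theorem exists_linext {α : Type} [Fintype α] [PartialOrder α] :
    ∃ f : α ≃ Fin (Fintype.card α), StrictMono f := by
  classical
  let t : α ≃ LinearExtension α := Equiv.refl α
  let _ : Fintype (LinearExtension α) := Fintype.ofEquiv α t
  have hc : Fintype.card (LinearExtension α) = Fintype.card α := (Fintype.card_congr t).symm
  let e := Fintype.orderIsoFinOfCardEq (LinearExtension α) hc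
  refine ⟨t.trans e.symm.toEquiv, ?_⟩
  intro a b hab
  have h1 : t a ≤ t b := (toLinearExtension (α := α)).monotone hab.le
  have h2 : t a ≠ t b := fun h => hab.ne (t.injective h)
  exact e.symm.strictMono (lt_of_le_of_ne h1 h2)

/-- The order with one more relation. -/
def addRel {α : Type} [PartialOrder α] {x y : α} (h : ¬ y ≤ x) : PartialOrder α where
  le := fun a b => a ≤ b ∨ (a ≤ x ∧ y ≤ b)
  lt := fun a b => (a ≤ b ∨ (a ≤ x ∧ y ≤ b)) ∧ ¬ (b ≤ a ∨ (b ≤ x ∧ y ≤ a))
  lt_iff_le_not_ge := fun _ _ => Iff.rfl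
  le_refl := fun a => Or.inl le_rfl
  le_trans := by
    rintro a b c (h1 | h1) (h2 | h2)
    · exact Or.inl (h1.trans h2)
    · exact Or.inr ⟨h1.trans h2.1, h2.2⟩
    · exact Or.inr ⟨h1.1, h1.2.trans h2⟩
    · exact Or.inr ⟨h1.1, h2.2⟩
  le_antisymm := by
    rintro a b (h1 | h1) (h2 | h2)
    · exact le_antisymm h1 h2
    · exact absurd ((h2.2.trans h1).trans h2.1) h
    · exact absurd ((h1.2.trans h2).trans h1.1) h
    · exact absurd (h1.2.trans h2.1) h

theorem exists_lt {α : Type} [Fintype α] [PartialOrder α] {x y : α} (h : ¬ y ≤ x) (hne : x ≠ y) :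
    ∃ f : α ≃ Fin (Fintype.card α), StrictMono f ∧ f x < f y := by
  classical
  obtain ⟨f, hf⟩ := @exists_linext α _ (addRel h)
  have key : ∀ a b : α, (a ≤ b ∨ (a ≤ x ∧ y ≤ b)) → a ≠ b → f a < f b := by
    intro a b h1 h2
    apply hf
    refine ⟨h1, fun h3 => h2 ?_⟩
    exact (addRel h).le_antisymm a b h1 h3
  exact ⟨f, fun a b hab => key a b (Or.inl hab.le) hab.ne, key x y (Or.inr ⟨le_rfl, le_rfl⟩) hne⟩

/-- The halving theorem: in every finite poset that is not a chain, some incomparable pair can be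
compared first, and then a second pair chosen by outcome, so that for all outcomes the number of
linear extensions has been divided by at least two. -/
theorem result :
    ∀ (α : Type) [Fintype α] [PartialOrder α],
      (∃ x y : α, ¬ x ≤ y ∧ ¬ y ≤ x) →
      ∃ a b : α, ¬ a ≤ b ∧ ¬ b ≤ a ∧
        ∀ u v : α, ((u = a ∧ v = b) ∨ (u = b ∧ v = a)) →
          ∃ c d : α, c ≠ d ∧
            ∀ w z : α, ((w = c ∧ z = d) ∨ (w = d ∧ z = c)) →
              2 * {f : α ≃ Fin (Fintype.card α) |
                  StrictMono (f : α → Fin (Fintype.card α)) ∧ f u < f v ∧ f w < f z}.ncard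
                ≤ {f : α ≃ Fin (Fintype.card α) |
                  StrictMono (f : α → Fin (Fintype.card α))}.ncard := by
  classical
  intro α _ _ ⟨x, y, hxy, hyx⟩
  have hne : x ≠ y := fun h => hxy h.le
  obtain ⟨f, hf, hf1⟩ := exists_lt hyx hne
  obtain ⟨g, hg, hg1⟩ := exists_lt hxy hne.symm
  have hfg : f ≠ g := by
    rintro rfl
    exact lt_asymm hf1 hg1
  have h2 : 2 ≤ (LinExt α).ncard := by
    have h3 : 1 < (LinExt α).ncard := by
      rw [Set.one_lt_ncard (Set.toFinite _)]
      exact ⟨f, hf, g, hg, hfg⟩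
    exact h3
  exact two_le all_fnb α h2

end Pool.Agent.Results.MP_480c30_co.Halving
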