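import Pool.Agent.Helper75.KS.AllS

namespace Pool.Agent.Results.MP_480c30_co.KahnSaks

/-- Two nearly perfect consecutive comparisons in every finite poset which has a large antichain, or an
element whose position in a random linear extension is not concentrated on an interval of bounded
length. -/
theorem result :
    ∀ ε : ℝ, 0 < ε → ∃ W : ℕ, ∀ (α : Type) [Fintype α] [PartialOrder α],
      ((∃ s : Finset α, IsAntichain (· ≤ ·) (s : Set α) ∧ W ≤ s.card) ∨
        ∃ x : α, ∀ k : ℕ,
          2 * {f : α ≃ Fin (Fintype.card α) |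
              StrictMono (f : α → Fin (Fintype.card α)) ∧
                k ≤ (f x : ℕ) ∧ (f x : ℕ) < k + W}.ncard ≤
            {f : α ≃ Fin (Fintype.card α) |
              StrictMono (f : α → Fin (Fintype.card α))}.ncard) →
      ∃ a b : α, ¬ a ≤ b ∧ ¬ b ≤ a ∧
        ∀ u v : α, ((u = a ∧ v = b) ∨ (u = b ∧ v = a)) →
          ∃ c d : α, c ≠ d ∧
            ∀ w z : α, ((w = c ∧ z = d) ∨ (w = d ∧ z = c)) →
              |(({f : α ≃ Fin (Fintype.card α) |
                  StrictMono (f : α → Fin (Fintype.card α)) ∧ f u < f v}.ncard : ℕ) : ℝ) -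
                (({f : α ≃ Fin (Fintype.card α) |
                  StrictMono (f : α → Fin (Fintype.card α))}.ncard : ℕ) : ℝ) / 2| ≤
                ε * (({f : α ≃ Fin (Fintype.card α) |
                  StrictMono (f : α → Fin (Fintype.card α))}.ncard : ℕ) : ℝ) ∧
              |(({f : α ≃ Fin (Fintype.card α) |
                  StrictMono (f : α → Fin (Fintype.card α)) ∧ f u < f v ∧ f w < f z}.ncard : ℕ) : ℝ) -
                (({f : α ≃ Fin (Fintype.card α) |
                  StrictMono (f : α → Fin (Fintype.card α))}.ncard : ℕ) : ℝ) / 4| ≤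
                ε * (({f : α ≃ Fin (Fintype.card α) |
                  StrictMono (f : α → Fin (Fintype.card α))}.ncard : ℕ) : ℝ) :=
  Pool.Agent.Helper75.KS.all_final

end Pool.Agent.Results.MP_480c30_co.KahnSaks
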