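import Pool.Agent.Helper51.GPC.NFree

namespace Pool.Agent.Results.MP_480c30_co.NFree

open Pool.Agent.Helper51.GPC

/-- Every finite N-free poset that is not a chain satisfies the golden partition conjecture. -/
theorem result (α : Type) [Fintype α] [PartialOrder α]
    (hN : ∀ a b x y : α, a ⋖ x → b ⋖ x → b ⋖ y → a ≤ y ∨ y ≤ a)
    (hx : ∃ x y : α, ¬ x ≤ y ∧ ¬ y ≤ x) : Golden α :=
  golden_of_nfree hN hx

end Pool.Agent.Results.MP_480c30_co.NFree
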